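import Mathlib

set_option autoImplicit false

open Set Filter Topology TopologicalSpace

namespace Pool.Agent.H.MP_8a2df8_gt

abbrev Cp (X : Type*) [TopologicalSpace X] := {f : X → ℝ // Continuous f}

def IsG (Z : Type*) [TopologicalSpace Z] : Prop :=
  ∀ A : Set Z, (∀ B ⊆ A, B.Infinite → ∃ z : Z, AccPt z (𝓟 B)) → IsCompact (closure A)

lemma cluster {Z : Type*} [TopologicalSpace Z] [T1Space Z] {A : Set Z}
    (hA : ∀ B ⊆ A, B.Infinite → ∃ z, AccPt z (𝓟 B)) (a : ℕ → Z) (ha : ∀ n, a n ∈ A) :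
    ∃ z, MapClusterPt z atTop a := by
  by_cases h : (range a).Finite
  · obtain ⟨z, -, hz⟩ := h.isCompact.exists_mapClusterPt (f := atTop) (u := a)
      (by simp)
    exact ⟨z, hz⟩
  · obtain ⟨z, hz⟩ := hA _ (range_subset_iff.2 ha) h
    refine ⟨z, mapClusterPt_iff_frequently.2 fun U hU => ?_⟩
    rw [Nat.frequently_atTop_iff_infinite]
    have := (Set.Infinite.of_accPt (hz.nhds_inter hU)).preimage (f := a) inter_subset_right
    exact this.mono fun n hn => hn.1

lemma acc_of_cluster {Z : Type*} [TopologicalSpace Z] {A : Set Z}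
    (h : ∀ a : ℕ → Z, (∀ n, a n ∈ A) → ∃ z, MapClusterPt z atTop a) :
    ∀ B ⊆ A, B.Infinite → ∃ z, AccPt z (𝓟 B) := by
  intro B hB hinf
  let e := hinf.natEmbedding B
  obtain ⟨z, hz⟩ := h (fun n => (e n).1) fun n => hB (e n).2
  refine ⟨z, accPt_iff_nhds.2 fun U hU => ?_⟩
  have h1 : ∀ᶠ n in atTop, (e n).1 ≠ z := by
    rw [← Nat.cofinite_eq_atTop]
    exact Set.Finite.subset ((finite_singleton z).preimage
      (Subtype.val_injective.comp e.injective).injOn) fun n hn => not_not.1 hn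
  obtain ⟨n, h2, h3⟩ := ((mapClusterPt_iff_frequently.1 hz U hU).and_eventually h1).exists
  exact ⟨_, ⟨h2, (e n).2⟩, h3⟩

variable {X : Type*} [TopologicalSpace X]

lemma tool {Z : Set (Cp X)} (hZ : IsG Z) {J : Type*} (φ : J → Cp X) (hφ : ∀ j, φ j ∈ Z)
    (h : ∀ a : ℕ → J, ∃ z ∈ Z, MapClusterPt z atTop (φ ∘ a)) :
    ∃ C : Set (X → ℝ), IsCompact C ∧ (∀ j, (φ j).1 ∈ C) ∧ ∀ v ∈ C, ∃ z ∈ Z, z.1 = v := by
  have := hZ (range fun j => ⟨φ j, hφ j⟩) (acc_of_cluster fun b hb => by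
    choose a ha using hb
    obtain ⟨z, hz, hz'⟩ := h a
    refine ⟨⟨z, hz⟩, ?_⟩
    refine IsInducing.subtypeVal.mapClusterPt_iff.1 ?_
    have : φ ∘ a = Subtype.val ∘ b := funext fun n => congrArg Subtype.val (ha n)
    rw [this] at hz'
    exact hz')
  refine ⟨_, this.image (continuous_subtype_val.comp continuous_subtype_val), fun j =>
    ⟨⟨φ j, hφ j⟩, subset_closure ⟨j, rfl⟩, rfl⟩, ?_⟩
  rintro _ ⟨z, -, rfl⟩
  exact ⟨z.1, z.2, rfl⟩

variable {K : Type*} [TopologicalSpace K]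

section
variable (hX : ∀ Z : Set (Cp X), IsG Z) {S : Set (Cp (X × K))} {A : Set S}
  (hA : ∀ a : ℕ → S, (∀ n, a n ∈ A) → ∃ z, MapClusterPt z atTop a)
  {g : X × K → ℝ} (hg : g ∈ closure ((fun f : S => f.1.1) '' A))

def App (g : X × K → ℝ) (T : Set K) (A' : Set S) : Prop :=
  ∃ l : Filter S, l.NeBot ∧ A' ∈ l ∧ ∀ x, ∀ t ∈ T, Tendsto (fun f : S => f.1.1 (x, t)) l (𝓝 (g (x, t)))

lemma cont_ev (p : X × K) : Continuous fun f : S => f.1.1 p :=
  (continuous_apply p).comp (continuous_subtype_val.comp continuous_subtype_val)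

include hg in
lemma app_all : App g univ A := by
  obtain ⟨u, hu, hu'⟩ := mem_closure_iff_ultrafilter.1 hg
  refine ⟨comap (fun f : S => f.1.1) u ⊓ 𝓟 A, ?_, mem_inf_of_right (mem_principal_self A),
    fun x t _ => ?_⟩
  · refine inf_principal_neBot_iff.2 ?_
    rintro U ⟨V, hV, hVU⟩
    obtain ⟨_, h1, f, hf, rfl⟩ := u.nonempty_of_mem (inter_mem hV hu)
    exact ⟨f, hVU h1, hf⟩
  · exact ((continuous_apply (x, t)).tendsto g).comp
      ((tendsto_comap.mono_right hu').mono_left inf_le_left)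

include hX hA hg in
lemma sep_cont (k : K) : Continuous fun x => g (x, k) := by
  let φ : S → Cp X := fun f => ⟨fun x => f.1.1 (x, k), f.1.2.comp (by fun_prop)⟩
  have hφ : Continuous φ := (continuous_pi fun x => cont_ev _).subtype_mk _
  obtain ⟨C, hC, h1, h2⟩ := tool (hX univ) (fun f : A => φ f.1) (fun _ => trivial) (fun a => by
    obtain ⟨z, hz⟩ := hA (fun n => (a n).1) fun n => (a n).2
    exact ⟨φ z, trivial, hz.continuousAt_comp hφ.continuousAt⟩)
  obtain ⟨l, hl, hlA, hl'⟩ := app_all hg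
  obtain ⟨z, -, hz⟩ := h2 (fun x => g (x, k)) (hC.isClosed.mem_of_tendsto
    (tendsto_pi_nhds.2 fun x => hl' x k trivial) (mem_of_superset hlA fun f hf => h1 ⟨f, hf⟩))
  exact hz ▸ z.2

include hX hA hg in
lemma exists_phi (T : Set K) (hT : T.Countable) : ∃ φ : S → Cp X, Continuous φ ∧
    ∀ l : Filter S, (∀ x, ∀ t ∈ T, Tendsto (fun f : S => f.1.1 (x, t)) l (𝓝 (g (x, t)))) ↔
      Tendsto (fun f => (φ f).1) l (𝓝 0) := by
  haveI := hT.to_subtype
  letI := metrizableSpaceMetric (T → ℝ)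
  refine ⟨fun f => ⟨fun x => dist (fun t : T => f.1.1 (x, t.1)) fun t : T => g (x, t.1),
    (continuous_pi fun t => f.1.2.comp (by fun_prop)).dist
      (continuous_pi fun t => sep_cont hX hA hg t.1)⟩,
    (continuous_pi fun x => (continuous_pi fun t => cont_ev _).dist continuous_const).subtype_mk _,
    fun l => ?_⟩
  rw [tendsto_pi_nhds]
  refine forall_congr' fun x => ?_
  refine Iff.trans ?_ tendsto_iff_dist_tendsto_zero
  rw [tendsto_pi_nhds, Subtype.forall]

include hX hA hg in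
lemma app_countable (T : Set K) (hT : T.Countable) :
    ∃ A' ⊆ A, A'.Countable ∧ App g T A' := by
  obtain ⟨φ, hφ, hφ'⟩ := exists_phi hX hA hg T hT
  obtain ⟨C, hC, h1, h2⟩ := tool (hX {z | ∃ A' ⊆ A, A'.Countable ∧ z ∈ closure (φ '' A')})
    (fun f : A => φ f.1) (fun f => ⟨{f.1}, singleton_subset_iff.2 f.2, countable_singleton _,
      subset_closure ⟨f.1, rfl, rfl⟩⟩) (fun a => by
    obtain ⟨z, hz⟩ := hA (fun n => (a n).1) fun n => (a n).2
    have := hz.continuousAt_comp hφ.continuousAt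
    refine ⟨φ z, ⟨range fun n => (a n).1, range_subset_iff.2 fun n => (a n).2, countable_range _,
      ?_⟩, this⟩
    exact this.clusterPt.mono (by simp [range_comp]) |>.mem_closure)
  obtain ⟨l, hl, hlA, hl'⟩ := app_all hg
  obtain ⟨z, ⟨A', h3, h4, h5⟩, hz⟩ := h2 0 (hC.isClosed.mem_of_tendsto
    ((hφ' l).1 fun x t _ => hl' x t trivial) (mem_of_superset hlA fun f hf => h1 ⟨f, hf⟩))
  refine ⟨A', h3, h4, comap φ (𝓝 z) ⊓ 𝓟 A', ?_, mem_inf_of_right (mem_principal_self _),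
    (hφ' _).2 ?_⟩
  · refine inf_principal_neBot_iff.2 ?_
    rintro U ⟨V, hV, hVU⟩
    obtain ⟨_, h1, f, hf, rfl⟩ := mem_closure_iff_nhds.1 h5 V hV
    exact ⟨f, hVU h1, hf⟩
  · rw [← hz]
    exact (continuous_subtype_val.tendsto z).comp (tendsto_comap.mono_left inf_le_left)

include hX hA hg in
lemma exists_h (T : Set K) (hT : T.Countable) {A' : Set S} (hA' : A' ⊆ A) (h : App g T A') :
    ∃ h ∈ closure A', ∀ x, ∀ t ∈ T, h.1.1 (x, t) = g (x, t) := by
  obtain ⟨φ, hφ, hφ'⟩ := exists_phi hX hA hg T hT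
  obtain ⟨C, hC, h1, h2⟩ := tool (hX (φ '' closure A'))
    (fun f : A' => φ f.1) (fun f => ⟨f.1, subset_closure f.2, rfl⟩) (fun a => by
    obtain ⟨z, hz⟩ := hA (fun n => (a n).1) fun n => hA' (a n).2
    refine ⟨φ z, ⟨z, ?_, rfl⟩, hz.continuousAt_comp hφ.continuousAt⟩
    exact (hz.clusterPt.mono (by simp [range_subset_iff])).mem_closure)
  obtain ⟨l, hl, hlA, hl'⟩ := h
  obtain ⟨_, ⟨z, h3, rfl⟩, hz⟩ := h2 0 (hC.isClosed.mem_of_tendsto
    ((hφ' l).1 hl') (mem_of_superset hlA fun f hf => h1 ⟨f, hf⟩))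
  refine ⟨z, h3, fun x t ht => ?_⟩
  have := (hφ' (pure z)).2 (by rw [← hz]; exact tendsto_pure_nhds _ _) x t ht
  exact tendsto_nhds_unique (tendsto_pure_nhds (fun f : S => f.1.1 (x, t)) z) this

include hX hA hg in
lemma exists_h' (T : Set K) (hT : T.Countable) :
    ∃ h : S, ∀ x, ∀ t ∈ T, h.1.1 (x, t) = g (x, t) := by
  obtain ⟨l, h1, h2, h3⟩ := app_all hg
  obtain ⟨h, -, hh⟩ := exists_h hX hA hg T hT subset_rfl ⟨l, h1, h2, fun x t _ => h3 x t trivial⟩
  exact ⟨h, hh⟩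

include hX in
lemma norming [CompactSpace K] (u : X × K → ℝ) (h0 : ∀ p, 0 ≤ u p)
    (hu : ∀ T : Set K, T.Countable → ∃ U : C(X × K, ℝ), ∀ x, ∀ t ∈ T, U (x, t) = u (x, t)) :
    ∃ T : Set K, T.Countable ∧ ∀ x k c, u (x, k) < c → c ≤ 1 → ∃ t ∈ T, u (x, t) < c := by
  let Q : Set K → Set (X → ℝ) := fun T => {v | (∀ x, v x ∈ Icc (0 : ℝ) 1) ∧
    (∀ x x' c, 0 ≤ c → (∀ t ∈ T, |u (x, t) - u (x', t)| ≤ c) → v x - v x' ≤ c) ∧
    ∀ x c, c ≤ 1 → (∀ t ∈ T, c ≤ u (x, t)) → c ≤ v x}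
  have hQm : ∀ T T', T ⊆ T' → Q T ⊆ Q T' := fun T T' h v hv =>
    ⟨hv.1, fun x x' c h1 h2 => hv.2.1 x x' c h1 fun t ht => h2 t (h ht),
      fun x c h1 h2 => hv.2.2 x c h1 fun t ht => h2 t (h ht)⟩
  have hQc : ∀ T, IsCompact (Q T) := fun T => by
    refine (isCompact_univ_pi fun _ => isCompact_Icc (a := (0 : ℝ)) (b := 1)).of_isClosed_subset ?_
      fun v hv x _ => hv.1 x
    simp only [Q, ofPred_and, ofPred_forall]
    refine (isClosed_iInter fun x => isClosed_Icc.preimage (continuous_apply x)).inter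
      ((isClosed_iInter fun x => isClosed_iInter fun x' => isClosed_iInter fun c =>
        isClosed_iInter fun _ => isClosed_iInter fun _ => isClosed_le (by fun_prop)
          continuous_const).inter
      (isClosed_iInter fun x => isClosed_iInter fun c => isClosed_iInter fun _ =>
        isClosed_iInter fun _ => isClosed_le continuous_const (continuous_apply x)))
  have hQcont : ∀ T, T.Countable → ∀ v ∈ Q T, Continuous v := fun T hT v hv => by
    obtain ⟨U, hU⟩ := hu T hT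
    have key : ∀ x x', v x - v x' ≤ dist (U.curry x) (U.curry x') := fun x x' =>
      hv.2.1 x x' _ dist_nonneg fun t ht => by
        rw [← hU x t ht, ← hU x' t ht]
        exact ContinuousMap.dist_apply_le_dist (f := U.curry x) (g := U.curry x') t
    refine continuous_iff_continuousAt.2 fun x => tendsto_iff_dist_tendsto_zero.2 ?_
    refine squeeze_zero (fun _ => dist_nonneg) (fun x' => ?_)
      (tendsto_iff_dist_tendsto_zero.1 (U.curry.continuous.tendsto x))
    rw [Real.dist_eq, abs_le]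
    have h1 := key x x'
    rw [dist_comm] at h1
    exact ⟨by linarith, key x' x⟩
  let w : Set K → X → ℝ := fun T x => sInf (insert 1 ((fun t => u (x, t)) '' T))
  have hb : ∀ T x, BddBelow (insert 1 ((fun t => u (x, t)) '' T)) := fun T x => ⟨0, by
    rintro _ (rfl | ⟨t, -, rfl⟩)
    · exact zero_le_one
    · exact h0 _⟩
  have hw1 : ∀ T x, w T x ≤ 1 := fun T x => csInf_le (hb T x) (mem_insert _ _)
  have hw2 : ∀ T x, ∀ t ∈ T, w T x ≤ u (x, t) := fun T x t ht =>
    csInf_le (hb T x) (Or.inr ⟨t, ht, rfl⟩)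
  have hw3 : ∀ T x c, c ≤ 1 → (∀ t ∈ T, c ≤ u (x, t)) → c ≤ w T x := fun T x c h1 h2 =>
    le_csInf (insert_nonempty _ _) (by
      rintro _ (rfl | ⟨t, ht, rfl⟩)
      · exact h1
      · exact h2 t ht)
  have hwQ : ∀ T, w T ∈ Q T := fun T =>
    ⟨fun x => ⟨hw3 T x 0 zero_le_one fun _ _ => h0 _, hw1 T x⟩, fun x x' c h1 h2 => by
      have := hw3 T x' (w T x - c) (by linarith [hw1 T x]) fun t ht => by
        linarith [hw2 T x t ht, (abs_le.1 (h2 t ht)).2]
      linarith, hw3 T⟩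
  obtain ⟨C, hC, h1, h2⟩ := tool (hX {z | ∃ T : Set K, T.Countable ∧ z.1 ∈ Q T})
    (fun T : {T : Set K // T.Countable} => ⟨w T.1, hQcont _ T.2 _ (hwQ _)⟩)
    (fun T => ⟨T.1, T.2, hwQ _⟩) (fun a => by
      have hT : (⋃ n, (a n).1).Countable := countable_iUnion fun n => (a n).2
      obtain ⟨v, hv, hv'⟩ := (hQc (⋃ n, (a n).1)).exists_mapClusterPt (f := atTop)
        (u := fun n => w (a n).1) (tendsto_principal.2 (Eventually.of_forall fun n =>
          hQm _ _ (subset_iUnion (fun n => (a n).1) n) (hwQ _)))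
      refine ⟨⟨v, hQcont _ hT v hv⟩, ⟨_, hT, hv⟩, ?_⟩
      exact IsInducing.subtypeVal.mapClusterPt_iff.1 hv')
  obtain ⟨v, hv, hv'⟩ := hC.exists_mapClusterPt (f := atTop)
    (u := fun F : Finset K => w F) (tendsto_principal.2 (Eventually.of_forall fun F =>
      h1 ⟨F, F.countable_toSet⟩))
  obtain ⟨z, ⟨T, hT, hz⟩, rfl⟩ := h2 v hv
  refine ⟨T, hT, fun x k c hc hc1 => ?_⟩
  by_contra hcon
  push Not at hcon
  have h3 := hz.2.2 x c hc1 hcon
  have h4 : z.1 ∈ {v : X → ℝ | v x ≤ u (x, k)} := by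
    refine (isClosed_le (continuous_apply x) continuous_const).mem_of_mapClusterPt hv' ?_
    filter_upwards [eventually_ge_atTop ({k} : Finset K)] with F hF
    exact hw2 _ x k (hF (Finset.mem_singleton_self k))
  exact absurd (h3.trans h4) (not_le.2 hc)

def Norm (g : X × K → ℝ) (A' : Set S) (T : Set K) : Prop :=
  ∀ x k, ∃ l : Filter K, l.NeBot ∧ T ∈ l ∧ Tendsto (fun t => g (x, t)) l (𝓝 (g (x, k))) ∧
    ∀ f ∈ A', Tendsto (fun t => f.1.1 (x, t)) l (𝓝 (f.1.1 (x, k)))

include hX hA hg in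
lemma exists_norm [CompactSpace K] (A' : Set S) (hA' : A'.Countable) :
    ∃ T : Set K, T.Countable ∧ Norm g A' T := by
  haveI := hA'.to_subtype
  letI := metrizableSpaceMetric (Option A' → ℝ)
  let G : (X × K → ℝ) → X × K → Option A' → ℝ := fun g p o => o.elim (g p) fun f => f.1.1.1 p
  obtain ⟨D, hD, hd⟩ := exists_countable_dense (Option A' → ℝ)
  have : ∀ d, ∃ T : Set K, T.Countable ∧
      ∀ x k c, dist (G g (x, k)) d < c → c ≤ 1 → ∃ t ∈ T, dist (G g (x, t)) d < c := fun d =>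
    norming hX (fun p => dist (G g p) d) (fun _ => dist_nonneg) fun T hT => by
      obtain ⟨h, hh⟩ := exists_h' hX hA hg T hT
      refine ⟨⟨fun p => dist (G h.1.1 p) d, Continuous.dist (continuous_pi ?_) continuous_const⟩,
        fun x t ht => ?_⟩
      · rintro (_ | f)
        · exact h.1.2
        · exact f.1.1.2
      · simp only [G, ContinuousMap.coe_mk, hh x t ht]
  choose T hT hT' using this
  refine ⟨⋃ d ∈ D, T d, hD.biUnion fun d _ => hT d, fun x k => ?_⟩
  have h1 : G g (x, k) ∈ closure ((fun t => G g (x, t)) '' ⋃ d ∈ D, T d) := by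
    refine Metric.mem_closure_iff.2 fun ε hε => ?_
    obtain ⟨d, hdD, hd'⟩ := Metric.mem_closure_iff.1 (hd (G g (x, k))) (min (ε / 2) 1)
      (lt_min (half_pos hε) one_pos)
    obtain ⟨t, ht, ht'⟩ := hT' d x k _ hd' (min_le_right _ _)
    refine ⟨_, ⟨t, mem_biUnion hdD ht, rfl⟩, ?_⟩
    linarith [dist_triangle_right (G g (x, k)) (G g (x, t)) d, min_le_left (ε / 2) 1]
  have h2 : Tendsto (fun t => G g (x, t))
      (comap (fun t => G g (x, t)) (𝓝 (G g (x, k))) ⊓ 𝓟 (⋃ d ∈ D, T d)) (𝓝 (G g (x, k))) :=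
    tendsto_comap.mono_left inf_le_left
  refine ⟨_, ?_, mem_inf_of_right (mem_principal_self _), tendsto_pi_nhds.1 h2 none,
    fun f hf => tendsto_pi_nhds.1 h2 (some ⟨f, hf⟩)⟩
  refine inf_principal_neBot_iff.2 ?_
  rintro U ⟨V, hV, hVU⟩
  obtain ⟨_, h1, f, hf, rfl⟩ := mem_closure_iff_nhds.1 h1 V hV
  exact ⟨f, hVU h1, hf⟩

lemma bind_neBot {α : Type*} {l : ℕ → Filter α} (h : ∀ n, (l n).NeBot) :
    (Filter.bind atTop l).NeBot := ⟨fun h' => by
  have : (∅ : Set α) ∈ Filter.bind atTop l := by rw [h']; exact mem_bot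
  obtain ⟨n, hn⟩ := Filter.nonempty_of_mem (mem_bind'.1 this)
  exact (h n).ne (empty_mem_iff_bot.1 hn)⟩

lemma bind_tendsto {α β : Type*} {l : ℕ → Filter α} {f : α → β} {m : Filter β}
    (h : ∀ᶠ n in atTop, Tendsto f (l n) m) : Tendsto f (Filter.bind atTop l) m :=
  fun _ hs => mem_bind'.2 (h.mono fun _ hn => hn hs)

include hX hA hg in
theorem mem_compact [CompactSpace K] : ∃ h : S, h.1.1 = g := by
  choose! a ha1 ha2 ha3 using app_countable hX hA hg
  choose! b hb1 hb2 using exists_norm hX hA hg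
  let P : ℕ → Set K × Set S := fun n => Nat.rec (∅, ∅)
    (fun _ p => (p.1 ∪ b p.2, p.2 ∪ a p.1)) n
  have hc : ∀ n, (P n).1.Countable ∧ (P n).2.Countable ∧ (P n).2 ⊆ A := by
    intro n
    induction n with
    | zero => exact ⟨countable_empty, countable_empty, empty_subset _⟩
    | succ n ih => exact ⟨ih.1.union (hb1 _ ih.2.1), ih.2.1.union (ha2 _ ih.1),
        union_subset ih.2.2 (ha1 _ ih.1)⟩
  have hm1 : Monotone fun n => (P n).1 := monotone_nat_of_le_succ fun n => subset_union_left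
  have hm2 : Monotone fun n => (P n).2 := monotone_nat_of_le_succ fun n => subset_union_left
  have happ : App g (⋃ n, (P n).1) (⋃ n, (P n).2) := by
    choose l h1 h2 h3 using fun n => ha3 _ (hc n).1
    refine ⟨Filter.bind atTop l, bind_neBot h1, mem_bind'.2 (Eventually.of_forall fun n =>
      mem_of_superset (h2 n) (subset_union_right.trans
        (subset_iUnion (fun n => (P n).2) (n + 1)))), fun x t ht => bind_tendsto ?_⟩
    obtain ⟨m, hm⟩ := mem_iUnion.1 ht
    filter_upwards [eventually_ge_atTop m] with n hn using h3 n x t (hm1 hn hm)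
  obtain ⟨h, hh, hh'⟩ := exists_h hX hA hg _ (countable_iUnion fun n => (hc n).1)
    (iUnion_subset fun n => (hc n).2.2) happ
  refine ⟨h, funext fun ⟨x, k⟩ => ?_⟩
  choose l h1 h2 h3 h4 using fun n => hb2 _ (hc n).2.1 x k
  haveI := bind_neBot h1
  obtain ⟨s, hs⟩ := exists_clusterPt_of_compactSpace (Filter.bind atTop l)
  have key : ∀ (f : X × K → ℝ) (c : ℝ), Continuous f →
      Tendsto (fun t => f (x, t)) (Filter.bind atTop l) (𝓝 c) → f (x, s) = c := fun f c hf hc =>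
    eq_of_nhds_neBot ((hs.map (hf.comp (Continuous.prodMk_right x)).continuousAt hc))
  have e1 : h.1.1 (x, s) = g (x, k) := key _ _ h.1.2 (by
    refine (bind_tendsto (Eventually.of_forall h3)).congr' ?_
    refine mem_bind'.2 (Eventually.of_forall fun n => mem_of_superset (h2 n) fun t ht => ?_)
    exact (hh' x t (mem_iUnion.2 ⟨n + 1, Or.inr ht⟩)).symm)
  have e2 : h ∈ {f : S | f.1.1 (x, s) = f.1.1 (x, k)} := by
    refine closure_minimal (fun f hf => key _ _ f.1.2 (bind_tendsto ?_))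
      (isClosed_eq (cont_ev _) (cont_ev _)) hh
    obtain ⟨m, hm⟩ := mem_iUnion.1 hf
    filter_upwards [eventually_ge_atTop m] with n hn using h4 n f (hm2 hn hm)
  exact e2.symm.trans e1

include hX hA hg in
theorem mem_separable [SeparableSpace K] : ∃ h : S, h.1.1 = g := by
  obtain ⟨D, hD, hd⟩ := exists_countable_dense K
  obtain ⟨h, hh⟩ := exists_h' hX hA hg D hD
  refine ⟨h, funext fun ⟨x, k⟩ => ?_⟩
  obtain ⟨h', hh'⟩ := exists_h' hX hA hg (insert k D) (hD.insert k)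
  have := Continuous.ext_on hd (h.1.2.comp (Continuous.prodMk_right x))
    (h'.1.2.comp (Continuous.prodMk_right x)) fun t ht => (hh x t ht).trans
      (hh' x t (Or.inr ht)).symm
  exact (congrFun this k).trans (hh' x k (Or.inl rfl))
end

lemma finish {Y : Type*} [TopologicalSpace Y] {S : Set (Cp Y)} {A : Set S}
    (hA : ∀ a : ℕ → S, (∀ n, a n ∈ A) → ∃ z, MapClusterPt z atTop a)
    (h : ∀ g ∈ closure ((fun f : S => f.1.1) '' A), ∃ h : S, h.1.1 = g) :
    IsCompact (closure A) := by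
  let ι : S → Y → ℝ := fun f => f.1.1
  have hι : IsEmbedding ι := IsEmbedding.subtypeVal.comp IsEmbedding.subtypeVal
  have hb : ∀ y, ∃ M : ℕ, ∀ f ∈ A, |ι f y| ≤ M := by
    intro y
    by_contra h
    push Not at h
    choose a ha ha' using h
    obtain ⟨z, hz⟩ := hA a ha
    have hc : Continuous fun f : S => |ι f y| := ((continuous_apply y).comp hι.continuous).abs
    have h1 := mapClusterPt_iff_frequently.1 hz _
      ((isOpen_lt hc continuous_const).mem_nhds (lt_add_one |ι z y|))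
    obtain ⟨n, hn, hn'⟩ := (h1.and_eventually
      (tendsto_natCast_atTop_atTop.eventually_ge_atTop (|ι z y| + 1))).exists
    exact lt_irrefl _ ((hn.trans_le hn').trans (ha' n))
  choose M hM using hb
  have hK : IsCompact (closure (ι '' A)) := by
    refine (isCompact_univ_pi fun y =>
      isCompact_Icc (a := -(M y : ℝ)) (b := M y)).closure_of_subset ?_
    rintro _ ⟨f, hf, rfl⟩ y _
    exact abs_le.1 (hM y f hf)
  rw [hι.closure_eq_preimage_closure_image, hι.isInducing.isCompact_preimage_iff h]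
  exact hK

theorem prod_compact [CompactSpace K] (hX : ∀ Z : Set (Cp X), IsG Z) (S : Set (Cp (X × K))) :
    IsG S := fun _ hA => finish (cluster hA) fun _ hg => mem_compact hX (cluster hA) hg

theorem prod_separable [SeparableSpace K] (hX : ∀ Z : Set (Cp X), IsG Z) (S : Set (Cp (X × K))) :
    IsG S := fun _ hA => finish (cluster hA) fun _ hg => mem_separable hX (cluster hA) hg

end Pool.Agent.H.MP_8a2df8_gt
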